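import Mathlib

set_option autoImplicit false

namespace Pool.Agent.G2Swap

open Finset

variable {E : Type*} [Fintype E] [DecidableEq E]

/-- Inclusion-exclusion: the sum over the sets disjoint from `Z`. -/
theorem sum_disjoint {K : Type*} [CommRing K] (f : Finset E → K) (Z : Finset E) :
    ∑ A ∈ univ.filter (fun A => Disjoint A Z), f A =
      ∑ D ∈ Z.powerset, (-1) ^ D.card * ∑ A ∈ univ.filter (fun A => D ⊆ A), f A := by
  classical
  have h1 : ∀ D ∈ Z.powerset, (-1 : K) ^ D.card * ∑ A ∈ univ.filter (fun A => D ⊆ A), f A =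
      ∑ A : Finset E, if D ⊆ A then (-1 : K) ^ D.card * f A else 0 := by
    intro D _
    rw [Finset.sum_filter, Finset.mul_sum]
    refine Finset.sum_congr rfl fun A _ => ?_
    split_ifs <;> simp
  rw [Finset.sum_congr rfl h1, Finset.sum_comm, Finset.sum_filter]
  refine Finset.sum_congr rfl fun A _ => ?_
  have h2 : ∑ D ∈ Z.powerset, (if D ⊆ A then (-1 : K) ^ D.card * f A else 0) =
      (∑ D ∈ (Z ∩ A).powerset, (-1 : K) ^ D.card) * f A := by
    rw [Finset.sum_mul, ← Finset.sum_filter]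
    refine Finset.sum_congr ?_ fun _ _ => rfl
    ext D
    simp only [Finset.mem_filter, Finset.mem_powerset, Finset.subset_inter_iff]
  have h3 : (∑ D ∈ (Z ∩ A).powerset, (-1 : K) ^ D.card) = if Z ∩ A = ∅ then 1 else 0 := by
    have := congrArg (Int.cast : ℤ → K) (Finset.sum_powerset_neg_one_pow_card (x := Z ∩ A))
    push_cast at this
    simpa using this
  rw [h2, h3]
  by_cases h : Disjoint A Z
  · rw [if_pos h, if_pos (Finset.disjoint_iff_inter_eq_empty.1 h.symm), one_mul]
  · rw [if_neg h, if_neg (fun h' => h (Finset.disjoint_iff_inter_eq_empty.2 h').symm), zero_mul]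

/-- Exchange with a prescribed element coming in. -/
theorem rev_exchange (N : Matroid E) {k : ℕ} (hk : ∀ A : Finset E, N.IsBase A → A.card = k)
    {A A' : Finset E} (hA : N.IsBase A) (hA' : N.IsBase A') {d : E} (hd : d ∈ A') (hdA : d ∉ A) :
    ∃ a, (a ∈ A ∧ a ∉ A') ∧ N.IsBase (insert d (A.erase a) : Finset E) := by
  classical
  have hI : N.Indep ((insert d (A ∩ A') : Finset E) : Set E) := by
    refine hA'.indep.subset ?_
    intro x hx
    simp only [Finset.coe_insert, Finset.coe_inter, Set.mem_insert_iff, Set.mem_inter_iff,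
      Finset.mem_coe] at hx ⊢
    rcases hx with rfl | hx
    · exact hd
    · exact hx.2
  obtain ⟨B, hB, hIB, hBA⟩ := hI.exists_isBase_subset_union_isBase hA
  obtain ⟨B', rfl⟩ : ∃ B' : Finset E, B = B' := ⟨B.toFinite.toFinset, (Set.Finite.coe_toFinset _).symm⟩
  have hBc := hk _ hB
  have hAc := hk _ hA
  have hIB' : insert d (A ∩ A') ⊆ B' := by exact_mod_cast hIB
  have hBA' : B' ⊆ insert d A := by
    intro x hx
    have h := hBA (show x ∈ (B' : Set E) from hx)
    simp only [Finset.coe_insert, Finset.coe_inter, Set.mem_union, Set.mem_insert_iff,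
      Set.mem_inter_iff, Finset.mem_coe] at h
    rw [Finset.mem_insert]
    tauto
  have hdB : d ∈ B' := hIB' (Finset.mem_insert_self _ _)
  obtain ⟨a, ha, haB⟩ : ∃ a ∈ A, a ∉ B' := by
    by_contra h
    push Not at h
    have h1 : insert d A ⊆ B' := Finset.insert_subset hdB h
    have h2 := Finset.card_le_card h1
    rw [Finset.card_insert_of_notMem hdA] at h2
    omega
  refine ⟨a, ⟨ha, fun h => haB (hIB' (Finset.mem_insert_of_mem (Finset.mem_inter.2 ⟨ha, h⟩)))⟩, ?_⟩
  have heq : B' = insert d (A.erase a) := by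
    refine Finset.eq_of_subset_of_card_le ?_ ?_
    · intro x hx
      have h := hBA' hx
      rw [Finset.mem_insert] at h ⊢
      rcases h with h | h
      · exact Or.inl h
      · exact Or.inr (Finset.mem_erase.2 ⟨fun h' => haB (h' ▸ hx), h⟩)
    · rw [Finset.card_insert_of_notMem (by simp [hdA]), Finset.card_erase_of_mem ha]
      have := Finset.card_pos.2 ⟨a, ha⟩
      omega
  rw [← heq]
  exact hB

/-- The key step: a common independent set of size `k - 1` without a common extension. -/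
theorem step (N₁ N₂ : Matroid E) {k : ℕ} (hk₁ : ∀ A : Finset E, N₁.IsBase A → A.card = k)
    (hk₂ : ∀ A : Finset E, N₂.IsBase A → A.card = k) (C : Finset E) (Y : Finset E → Prop)
    (hY : ∀ A A' : Finset E, N₁.IsBase A → N₂.IsBase A → N₁.IsBase A' → N₂.IsBase A' →
      C ⊆ A → C ⊆ A' → k ≤ (A ∩ A').card + 2 → Y A → Y A')
    {A₀ A₁ : Finset E} (hA₀ : N₁.IsBase A₀ ∧ N₂.IsBase A₀ ∧ C ⊆ A₀ ∧ Y A₀)
    (hA₁ : N₁.IsBase A₁ ∧ N₂.IsBase A₁ ∧ C ⊆ A₁ ∧ ¬ Y A₁) :
    ∃ G : Finset E, C ⊆ G ∧ G.card + 1 = k ∧ N₁.Indep G ∧ N₂.Indep G ∧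
      ∀ e, ¬ (N₁.IsBase (insert e G : Finset E) ∧ N₂.IsBase (insert e G : Finset E)) := by
  classical
  -- a closest pair
  obtain ⟨⟨A, A'⟩, hp, hmax⟩ := Finset.exists_max_image
    ((univ : Finset (Finset E × Finset E)).filter fun p =>
      (N₁.IsBase p.1 ∧ N₂.IsBase p.1 ∧ C ⊆ p.1 ∧ Y p.1) ∧
      (N₁.IsBase p.2 ∧ N₂.IsBase p.2 ∧ C ⊆ p.2 ∧ ¬ Y p.2)) (fun p => (p.1 ∩ p.2).card)
    ⟨(A₀, A₁), by simp [hA₀, hA₁]⟩
  simp only [Finset.mem_filter, Finset.mem_univ, true_and] at hp
  obtain ⟨⟨hA1, hA2, hCA, hYA⟩, ⟨hA'1, hA'2, hCA', hYA'⟩⟩ := hp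
  have hlt : (A ∩ A').card + 2 < k := by
    by_contra h
    exact hYA' (hY A A' hA1 hA2 hA'1 hA'2 hCA hCA' (by omega) hYA)
  have hcA := hk₁ A hA1
  have hcA' := hk₁ A' hA'1
  have hdiff : (A \ A').card + (A ∩ A').card = A.card := Finset.card_sdiff_add_card_inter A A'
  have hdiff' : (A' \ A).card + (A' ∩ A).card = A'.card := Finset.card_sdiff_add_card_inter A' A
  rw [Finset.inter_comm A' A] at hdiff'
  obtain ⟨d, hd⟩ : (A' \ A).Nonempty := by
    rw [← Finset.card_pos]; omega
  rw [Finset.mem_sdiff] at hd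
  obtain ⟨a, ha, haB⟩ := rev_exchange N₁ hk₁ hA1 hA'1 hd.1 hd.2
  obtain ⟨b, hb, hbB⟩ := rev_exchange N₂ hk₂ hA2 hA'2 hd.1 hd.2
  -- choose `a'` different from `a`
  obtain ⟨a', ha', hne, hI2⟩ : ∃ a' ∈ A \ A', a' ≠ a ∧
      N₂.Indep ((insert d ((A.erase a).erase a') : Finset E) : Set E) := by
    have hbI := hbB.indep
    by_cases hab : b = a
    · obtain ⟨a', ha'⟩ : ((A \ A').erase a).Nonempty := by
        rw [← Finset.card_pos, Finset.card_erase_of_mem (Finset.mem_sdiff.2 ha)]; omega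
      rw [Finset.mem_erase] at ha'
      refine ⟨a', ha'.2, ha'.1, hbI.subset ?_⟩
      subst hab
      intro x hx
      simp only [Finset.mem_coe, Finset.mem_insert, Finset.mem_erase] at hx ⊢
      rcases hx with rfl | hx
      · exact Or.inl rfl
      · exact Or.inr ⟨hx.2.1, hx.2.2⟩
    · refine ⟨b, Finset.mem_sdiff.2 hb, hab, hbI.subset ?_⟩
      intro x hx
      simp only [Finset.mem_coe, Finset.mem_insert, Finset.mem_erase] at hx ⊢
      rcases hx with rfl | hx
      · exact Or.inl rfl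
      · exact Or.inr ⟨hx.1, hx.2.2⟩
  have haA : a ∈ A := ha.1
  have haA' : a ∉ A' := ha.2
  rw [Finset.mem_sdiff] at ha'
  set G : Finset E := insert d ((A.erase a).erase a') with hG
  have hdG : d ∉ (A.erase a).erase a' := by simp [hd.2]
  have hGc : G.card + 1 = k := by
    rw [hG, Finset.card_insert_of_notMem hdG, Finset.card_erase_of_mem (by simp [hne, ha'.1]),
      Finset.card_erase_of_mem haA]
    omega
  have hI1 : N₁.Indep (G : Set E) := by
    refine haB.indep.subset ?_
    intro x hx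
    simp only [hG, Finset.mem_coe, Finset.mem_insert, Finset.mem_erase] at hx ⊢
    rcases hx with rfl | hx
    · exact Or.inl rfl
    · exact Or.inr ⟨hx.2.1, hx.2.2⟩
  have hCG : C ⊆ G := by
    intro x hx
    have h1 := hCA hx
    have h2 := hCA' hx
    simp only [hG, Finset.mem_insert, Finset.mem_erase]
    refine Or.inr ⟨?_, ?_, h1⟩
    · rintro rfl; exact ha'.2 h2
    · rintro rfl; exact haA' h2
  refine ⟨G, hCG, hGc, hI1, hI2, ?_⟩
  rintro e ⟨hB1, hB2⟩
  set B : Finset E := insert e G with hB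
  have hCB : C ⊆ B := hCG.trans (Finset.subset_insert _ _)
  have h1 : (A.erase a).erase a' ⊆ A ∩ B := by
    intro x hx
    have hx' := hx
    simp only [Finset.mem_erase] at hx'
    simp only [Finset.mem_inter, hB, hG, Finset.mem_insert]
    exact ⟨hx'.2.2, Or.inr (Or.inr hx)⟩
  have h2 : ((A.erase a).erase a').card + 2 = k := by
    rw [Finset.card_erase_of_mem (by simp [hne, ha'.1]), Finset.card_erase_of_mem haA]
    omega
  have hYB : Y B := hY A B hA1 hA2 hB1 hB2 hCA hCB
    (by have := Finset.card_le_card h1; omega) hYA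
  have h3 : insert d (A ∩ A') ⊆ B ∩ A' := by
    intro x hx
    simp only [Finset.mem_insert, Finset.mem_inter] at hx
    simp only [Finset.mem_inter, hB, hG, Finset.mem_insert, Finset.mem_erase]
    rcases hx with rfl | hx
    · exact ⟨Or.inr (Or.inl rfl), hd.1⟩
    · refine ⟨Or.inr (Or.inr ⟨?_, ?_, hx.1⟩), hx.2⟩
      · rintro rfl; exact ha'.2 hx.2
      · rintro rfl; exact haA' hx.2
  have h4 : (A ∩ A').card + 1 ≤ (B ∩ A').card := by
    have := Finset.card_le_card h3
    rwa [Finset.card_insert_of_notMem (by simp [hd.2])] at this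
  have h5 := hmax (B, A') (by
    simp only [Finset.mem_filter, Finset.mem_univ, true_and]
    exact ⟨⟨hB1, hB2, hCB, hYB⟩, ⟨hA'1, hA'2, hCA', hYA'⟩⟩)
  simp only at h5
  omega

/-- **Core.** The sums over closed families vanish. -/
theorem core {K : Type*} [CommRing K] (N₁ N₂ : Matroid E) {k : ℕ}
    (hk₁ : ∀ A : Finset E, N₁.IsBase A → A.card = k)
    (hk₂ : ∀ A : Finset E, N₂.IsBase A → A.card = k) (F : Finset E → K)
    (hF : ∀ A : Finset E, F A ≠ 0 → N₁.IsBase A ∧ N₂.IsBase A)
    (H1 : ∀ C : Finset E, C.card < k → ∑ A ∈ univ.filter (fun A => C ⊆ A), F A = 0)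
    (Y : Finset E → Prop)
    (n : ℕ) : ∀ C : Finset E, C.card + n = k → 0 < n →
    (∀ A A' : Finset E, N₁.IsBase A → N₂.IsBase A → N₁.IsBase A' → N₂.IsBase A' →
      C ⊆ A → C ⊆ A' → k ≤ (A ∩ A').card + 2 → Y A → Y A') →
    ∀ f : Finset E → K, (∀ A, Y A → f A = F A) → (∀ A, ¬ Y A → f A = 0) →
    ∑ A ∈ univ.filter (fun A => C ⊆ A), f A = 0 := by
  classical
  induction n using Nat.strong_induction_on with
  | _ n ih =>
  intro C hC hn hY f hf1 hf0
  by_cases hall : ∀ A : Finset E, N₁.IsBase A → N₂.IsBase A → C ⊆ A → Y A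
  · rw [← H1 C (by omega)]
    refine Finset.sum_congr rfl fun A hA => ?_
    rw [Finset.mem_filter] at hA
    by_cases hYA : Y A
    · exact hf1 A hYA
    · rw [hf0 A hYA]
      by_contra h
      obtain ⟨h1, h2⟩ := hF A (Ne.symm h)
      exact hYA (hall A h1 h2 hA.2)
  by_cases hnone : ∀ A : Finset E, N₁.IsBase A → N₂.IsBase A → C ⊆ A → ¬ Y A
  · refine Finset.sum_eq_zero fun A hA => ?_
    rw [Finset.mem_filter] at hA
    by_cases hYA : Y A
    · rw [hf1 A hYA]
      by_contra h
      obtain ⟨h1, h2⟩ := hF A h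
      exact hnone A h1 h2 hA.2 hYA
    · exact hf0 A hYA
  push Not at hall hnone
  obtain ⟨A₁, h1, h2, h3, h4⟩ := hall
  obtain ⟨A₀, h5, h6, h7, h8⟩ := hnone
  obtain ⟨G, hCG, hGc, hG1, hG2, hGe⟩ := step N₁ N₂ hk₁ hk₂ C Y hY ⟨h5, h6, h7, h8⟩
    ⟨h1, h2, h3, h4⟩
  -- augmentation
  have aug1 : ∀ A : Finset E, N₁.IsBase A → ∃ e ∈ A, N₁.IsBase (insert e G : Finset E) := by
    intro A hA
    obtain ⟨B, hB, hGB, hBA⟩ := hG1.exists_isBase_subset_union_isBase hA
    obtain ⟨B', rfl⟩ : ∃ B' : Finset E, B = B' := ⟨B.toFinite.toFinset, (Set.Finite.coe_toFinset _).symm⟩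
    have hBc := hk₁ _ hB
    have hGB' : G ⊆ B' := by exact_mod_cast hGB
    obtain ⟨e, he, heq⟩ : ∃ e, e ∉ G ∧ insert e G = B' := by
      have h9 : (B' \ G).card = 1 := by
        rw [Finset.card_sdiff_of_subset hGB']; omega
      obtain ⟨e, he⟩ := Finset.card_eq_one.1 h9
      have he' : e ∈ B' \ G := by rw [he]; simp
      rw [Finset.mem_sdiff] at he'
      refine ⟨e, he'.2, ?_⟩
      refine Finset.eq_of_subset_of_card_le (Finset.insert_subset he'.1 hGB') ?_
      rw [Finset.card_insert_of_notMem he'.2]; omega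
    refine ⟨e, ?_, by rw [heq]; exact hB⟩
    have h10 : e ∈ (G : Set E) ∪ A := hBA (by rw [← heq]; simp)
    rcases h10 with h | h
    · exact absurd (by simpa using h) he
    · simpa using h
  have aug2 : ∀ A : Finset E, N₂.IsBase A → ∃ e ∈ A, N₂.IsBase (insert e G : Finset E) := by
    intro A hA
    obtain ⟨B, hB, hGB, hBA⟩ := hG2.exists_isBase_subset_union_isBase hA
    obtain ⟨B', rfl⟩ : ∃ B' : Finset E, B = B' := ⟨B.toFinite.toFinset, (Set.Finite.coe_toFinset _).symm⟩
    have hBc := hk₂ _ hB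
    have hGB' : G ⊆ B' := by exact_mod_cast hGB
    obtain ⟨e, he, heq⟩ : ∃ e, e ∉ G ∧ insert e G = B' := by
      have h9 : (B' \ G).card = 1 := by
        rw [Finset.card_sdiff_of_subset hGB']; omega
      obtain ⟨e, he⟩ := Finset.card_eq_one.1 h9
      have he' : e ∈ B' \ G := by rw [he]; simp
      rw [Finset.mem_sdiff] at he'
      refine ⟨e, he'.2, ?_⟩
      refine Finset.eq_of_subset_of_card_le (Finset.insert_subset he'.1 hGB') ?_
      rw [Finset.card_insert_of_notMem he'.2]; omega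
    refine ⟨e, ?_, by rw [heq]; exact hB⟩
    have h10 : e ∈ (G : Set E) ∪ A := hBA (by rw [← heq]; simp)
    rcases h10 with h | h
    · exact absurd (by simpa using h) he
    · simpa using h
  -- nothing happens inside `G`
  have hno : ∀ e ∈ C, ¬ N₁.IsBase (insert e G : Finset E) ∧ ¬ N₂.IsBase (insert e G : Finset E) := by
    intro e he
    rw [Finset.insert_eq_of_mem (hCG he)]
    exact ⟨fun h => by have := hk₁ _ h; omega, fun h => by have := hk₂ _ h; omega⟩
  let Z : Finset E := univ.filter fun e => e ∉ C ∧ ¬ N₁.IsBase (insert e G : Finset E)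
  let g : Finset E → K := fun A => if C ⊆ A then f A else 0
  have hgz : ∀ A, g A ≠ 0 → N₁.IsBase A ∧ N₂.IsBase A ∧ C ⊆ A := by
    intro A hA
    have hCA : C ⊆ A := by
      by_contra h
      exact hA (if_neg h)
    have hfA : f A ≠ 0 := by simpa [g, hCA] using hA
    have hYA : Y A := by
      by_contra h
      exact hfA (hf0 A h)
    rw [hf1 A hYA] at hfA
    exact ⟨(hF A hfA).1, (hF A hfA).2, hCA⟩
  have key := sum_disjoint g Z
  have e1 : ∑ A ∈ univ.filter (fun A => Disjoint A Z), g A = 0 := by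
    refine Finset.sum_eq_zero fun A hA => ?_
    rw [Finset.mem_filter] at hA
    by_contra h
    obtain ⟨hA1, hA2, hCA⟩ := hgz A h
    obtain ⟨e, heA, heB⟩ := aug2 A hA2
    have heC : e ∉ C := fun h => (hno e h).2 heB
    have heN : ¬ N₁.IsBase (insert e G : Finset E) := fun h => hGe e ⟨h, heB⟩
    exact Finset.disjoint_left.1 hA.2 heA (Finset.mem_filter.2 ⟨Finset.mem_univ _, heC, heN⟩)
  have e2 : ∀ D ∈ Z.powerset, D ≠ ∅ →
      (-1 : K) ^ D.card * ∑ A ∈ univ.filter (fun A => D ⊆ A), g A = 0 := by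
    intro D hD hD0
    rw [Finset.mem_powerset] at hD
    have hDC : Disjoint C D := by
      rw [Finset.disjoint_left]
      intro x hx hx'
      have := hD hx'
      simp only [Z, Finset.mem_filter, Finset.mem_univ, true_and] at this
      exact this.1 hx
    have hcard : (C ∪ D).card = C.card + D.card := Finset.card_union_of_disjoint hDC
    have hD1 : 0 < D.card := Finset.card_pos.2 (Finset.nonempty_iff_ne_empty.2 hD0)
    have e3 : ∑ A ∈ univ.filter (fun A => D ⊆ A), g A =
        ∑ A ∈ univ.filter (fun A => C ∪ D ⊆ A), f A := by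
      rw [Finset.sum_filter, Finset.sum_filter]
      refine Finset.sum_congr rfl fun A _ => ?_
      by_cases h9 : C ⊆ A <;> by_cases h10 : D ⊆ A <;> simp [g, h9, h10, Finset.union_subset_iff]
    rw [e3]
    by_cases hlt : (C ∪ D).card < k
    · rw [ih (k - (C ∪ D).card) (by omega) (C ∪ D) (by omega) (by omega)
        (fun A A' h1 h2 h3 h4 h5 h6 => hY A A' h1 h2 h3 h4
          (Finset.subset_union_left.trans h5) (Finset.subset_union_left.trans h6)) f hf1 hf0,
        mul_zero]
    · rw [Finset.sum_eq_zero, mul_zero]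
      intro A hA
      rw [Finset.mem_filter] at hA
      by_contra h
      have hg : g A ≠ 0 := by
        have : C ⊆ A := Finset.subset_union_left.trans hA.2
        simpa [g, this] using h
      obtain ⟨hA1, hA2, hCA⟩ := hgz A hg
      have hAeq : C ∪ D = A := Finset.eq_of_subset_of_card_le hA.2 (by rw [hk₁ A hA1]; omega)
      obtain ⟨e, heA, heB⟩ := aug1 A hA1
      rw [← hAeq, Finset.mem_union] at heA
      rcases heA with heA | heA
      · exact (hno e heA).1 heB
      · have := hD heA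
        simp only [Z, Finset.mem_filter, Finset.mem_univ, true_and] at this
        exact this.2 heB
  rw [e1, Finset.sum_eq_single_of_mem ∅ (Finset.empty_mem_powerset Z)
    (fun D hD hD0 => e2 D hD hD0)] at key
  simp only [Finset.card_empty, pow_zero, one_mul, Finset.empty_subset, Finset.filter_true] at key
  rw [Finset.sum_filter]
  exact key.symm

end Pool.Agent.G2Swap
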