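import Pool.Agent.H68Rg.OfRG

set_option autoImplicit false

namespace Pool.Agent.G2Swap

open Finset
open Pool.Agent.H68Rg

variable {r : ℕ} {K : Type*} [Field K]

/-- The link sums of the determinants vanish, over every field. -/
theorem hsum (E : Fin r ⊕ Fin r → Fin r → K) (C : Finset (Fin r ⊕ Fin r)) (hC : C.card < r) :
    ∑ A ∈ univ.filter (fun A => C ⊆ A), (mat E A).det = 0 := by
  classical
  let m : (Fin r ⊕ Fin r) → (Fin r ⊕ Fin r) → K := fun a => Sum.elim (E a) 0
  let m' : (Fin r ⊕ Fin r) → (Fin r ⊕ Fin r) → K :=
    fun a => if a ∈ C then 0 else Sum.elim 0 (E a)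
  have h := (Matrix.detRowAlternating (R := K) (n := Fin r ⊕ Fin r)).toMultilinearMap.map_add_univ
    m m'
  have hL : (Matrix.detRowAlternating (R := K) (n := Fin r ⊕ Fin r)).toMultilinearMap (m + m') =
      (mat E C).det := by
    have e1 : (Matrix.of (m + m') : Matrix (Fin r ⊕ Fin r) (Fin r ⊕ Fin r) K) =
        ((Matrix.fromBlocks 1 1 0 1 : Matrix (Fin r ⊕ Fin r) (Fin r ⊕ Fin r) K) *
          mat E C).transpose := by
      ext a x
      by_cases ha : a ∈ C
      · rcases x with i | i <;>
          simp [m, m', mat, Matrix.mul_apply, Matrix.fromBlocks, Matrix.one_apply, ha]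
      · rcases x with i | i <;>
          simp [m, m', mat, Matrix.mul_apply, Matrix.fromBlocks, Matrix.one_apply, ha]
    change (Matrix.of (m + m')).det = _
    rw [e1, Matrix.det_transpose, Matrix.det_mul, Matrix.det_fromBlocks_zero₂₁]
    simp
  have hR : ∀ A : Finset (Fin r ⊕ Fin r),
      (Matrix.detRowAlternating (R := K) (n := Fin r ⊕ Fin r)).toMultilinearMap
        (A.piecewise m m') = if C ⊆ A then (mat E A).det else 0 := by
    intro A
    split_ifs with hA
    · change (Matrix.of (A.piecewise m m')).det = _
      rw [← Matrix.det_transpose (mat E A)]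
      congr 1
      ext a x
      by_cases ha : a ∈ A
      · rcases x with i | i <;> simp [m, mat, ha, Finset.piecewise]
      · have haC : a ∉ C := fun h' => ha (hA h')
        rcases x with i | i <;> simp [m', mat, ha, haC, Finset.piecewise]
    · obtain ⟨a, haC, haA⟩ := Finset.not_subset.1 hA
      refine MultilinearMap.map_coord_zero _ a ?_
      simp [m', Finset.piecewise, haA, haC]
  rw [hL, Finset.sum_congr rfl fun A _ => hR A, ← Finset.sum_filter] at h
  rw [← h]
  by_contra h0
  have := (card_of_det h0).1
  omega

/-- If the vectors are independent then the determinant does not vanish. -/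
theorem det_ne {E : Fin r ⊕ Fin r → Fin r → K} {A : Finset (Fin r ⊕ Fin r)}
    (h1 : LinearIndepOn K E (A : Set (Fin r ⊕ Fin r)))
    (h2 : LinearIndepOn K E ((Aᶜ : Finset (Fin r ⊕ Fin r)) : Set (Fin r ⊕ Fin r))) :
    (mat E A).det ≠ 0 := by
  classical
  have hcol : LinearIndependent K (mat E A).col := by
    rw [Fintype.linearIndependent_iff]
    intro c hc
    have hA : ∑ a ∈ A, c a • E a = 0 := by
      ext i
      have := congrFun hc (Sum.inl i)
      simp only [Finset.sum_apply, Pi.smul_apply, Matrix.col_apply, mat, Matrix.of_apply,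
        Sum.elim_inl, Pi.zero_apply, smul_eq_mul, mul_ite, mul_zero] at this
      rw [← Finset.sum_filter] at this
      simpa using this
    have hAc : ∑ a ∈ Aᶜ, c a • E a = 0 := by
      ext i
      have := congrFun hc (Sum.inr i)
      simp only [Finset.sum_apply, Pi.smul_apply, Matrix.col_apply, mat, Matrix.of_apply,
        Sum.elim_inr, Pi.zero_apply, smul_eq_mul, mul_ite, mul_zero] at this
      rw [← Finset.sum_filter_add_sum_filter_not univ (fun a => a ∈ A)] at this
      rw [Finset.sum_eq_zero (s := univ.filter fun a => a ∈ A), zero_add] at this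
      · rw [Finset.sum_congr (s₂ := Aᶜ) (g := fun a => c a * E a i)] at this
        · simpa using this
        · ext a; simp
        · intro a ha
          simp [Finset.mem_compl.1 ha]
      · intro a ha
        simp [(Finset.mem_filter.1 ha).2]
    intro a
    by_cases ha : a ∈ A
    · exact (linearIndepOn_finset_iff.1 h1) c hA a ha
    · exact (linearIndepOn_finset_iff.1 h2) c hAc a (Finset.mem_compl.2 ha)
  have := Matrix.linearIndependent_cols_iff_isUnit.1 hcol
  exact ((Matrix.isUnit_iff_isUnit_det _).1 this).ne_zero

end Pool.Agent.G2Swap
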