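import Pool.Agent.G2Swap.Levels
import Pool.Agent.G2Swap.Core

set_option autoImplicit false

namespace Pool.Agent.G2Swap.Levels

open Finset

variable {E : Type*} [Fintype E] [DecidableEq E] {K : Type*} [Field K]

/-- A set without members of the support is small, if level `k` fails at `C`. -/
theorem coc {F : Finset E → K} {r k : ℕ} (hF : ∀ A, F A ≠ 0 → A.card = r)
    (hE : Fintype.card E = 2 * r) (hc : ∀ A, A.card = r → F Aᶜ = (-1) ^ r * F A)
    {P : Finset E → Prop} (hP : Closed F r P) {C : Finset E} (hC : C.card + k = r) (hk0 : 0 < k)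
    (hlev : ∀ P, Closed F r P → ∀ D : Finset E, D.card < r → r < D.card + k →
      up (part F P) D = 0) (hg : up (part F P) C ≠ 0) {H : Finset E} (hCH : C ⊆ H)
    (hH : ∀ A, F A ≠ 0 → ¬ A ⊆ H) : H.card ≤ 2 * C.card := by
  classical
  by_contra hlt
  have hf := part_card hF P
  set Z := H \ C with hZ
  have hZc : Z.card = H.card - C.card := by
    rw [hZ, Finset.card_sdiff_of_subset hCH]
  have hCZ : Disjoint C Z := by
    rw [hZ]; exact Finset.disjoint_sdiff
  have hZH : Z ⊆ H := Finset.sdiff_subset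
  have h1 := updis_formula hf hCZ hC hk0 (fun D hCD hD => hlev P hP D hD (by
    have := Finset.card_lt_card hCD
    omega))
  have h2 : ∑ D ∈ Z.powersetCard k, part F P (C ∪ D) = 0 := by
    refine Finset.sum_eq_zero fun D hD => ?_
    rw [Finset.mem_powersetCard] at hD
    by_contra h
    have h3 : F (C ∪ D) ≠ 0 := by
      unfold part at h
      split_ifs at h with h4
      · exact h
      · exact absurd rfl h
    exact hH _ h3 (Finset.union_subset hCH (hD.1.trans hZH))
  rw [h2, mul_zero, add_zero, updis_compl, updis_eq] at h1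
  refine hg ?_
  rw [← h1]
  refine Finset.sum_eq_zero fun C' hC' => ?_
  rw [Finset.mem_powerset] at hC'
  have hd' : Disjoint Z C' := (Finset.disjoint_of_subset_left hC' hCZ).symm
  have hcard := Finset.card_union_of_disjoint hd'
  have hle := Finset.card_le_card hC'
  have h4 : up (fun A => part F P Aᶜ) (Z ∪ C') =
      (-1) ^ r * up (part F fun A => P Aᶜ) (Z ∪ C') := by
    rw [up, up, Finset.mul_sum]
    exact Finset.sum_congr rfl fun A _ => part_compl hF hE hc P A
  rw [h4]
  have hf' := part_card hF (fun A => P Aᶜ)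
  rcases Nat.lt_trichotomy (Z ∪ C').card r with h5 | h5 | h5
  · rw [hlev _ (closed_compl hF hE hc hP) _ h5 (by omega), mul_zero, mul_zero]
  · rw [up_top hf' h5]
    have h6 : F (Z ∪ C') = 0 := by
      by_contra h
      exact hH _ h (Finset.union_subset hZH (hC'.trans hCH))
    unfold part
    split_ifs <;> simp [h6]
  · rw [up_big hf' h5, mul_zero, mul_zero]

/-- Augmentation. -/
theorem aug (N : Matroid E) {r : ℕ} (hN : ∀ A : Finset E, N.IsBase A → A.card = r)
    {G : Finset E} (hG : N.Indep G) (hGc : G.card + 1 = r) {A : Finset E} (hA : N.IsBase A) :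
    ∃ e ∈ A, N.IsBase (insert e G : Finset E) := by
  classical
  obtain ⟨B, hB, hGB, hBA⟩ := hG.exists_isBase_subset_union_isBase hA
  obtain ⟨B', rfl⟩ : ∃ B' : Finset E, B = B' := ⟨B.toFinite.toFinset, (Set.Finite.coe_toFinset _).symm⟩
  have hBc := hN _ hB
  have hGB' : G ⊆ B' := by exact_mod_cast hGB
  obtain ⟨e, he, heq⟩ : ∃ e, e ∉ G ∧ insert e G = B' := by
    have h9 : (B' \ G).card = 1 := by
      rw [Finset.card_sdiff_of_subset hGB']; omega
    obtain ⟨e, he⟩ := Finset.card_eq_one.1 h9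
    have he' : e ∈ B' \ G := by rw [he]; simp
    rw [Finset.mem_sdiff] at he'
    refine ⟨e, he'.2, ?_⟩
    refine Finset.eq_of_subset_of_card_le (Finset.insert_subset he'.1 hGB') ?_
    rw [Finset.card_insert_of_notMem he'.2]; omega
  refine ⟨e, ?_, by rw [heq]; exact hB⟩
  have h10 : e ∈ (G : Set E) ∪ A := hBA (by rw [← heq]; simp)
  rcases h10 with h | h
  · exact absurd (Finset.mem_coe.1 h) he
  · exact Finset.mem_coe.1 h

/-- The relation of a link of rank two. -/
def R (N : Matroid E) (G : Finset E) (x y : E) : Prop :=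
  N.IsBase (insert x (insert y G) : Finset E)

theorem R_symm {N : Matroid E} {G : Finset E} {x y : E} (h : R N G x y) : R N G y x := by
  unfold R at *
  rwa [Finset.insert_comm]

theorem R_tri (N : Matroid E) {r : ℕ} (hN : ∀ A : Finset E, N.IsBase A → A.card = r)
    {G : Finset E} (hG : G.card + 2 = r) {x y z w : E} (h1 : R N G x y) (h2 : R N G z w) :
    R N G z x ∨ R N G z y := by
  classical
  unfold R at h1 h2
  have hzc : (insert z G).card + 1 = r := by
    have h3 := hN _ h2
    have h4 : (insert z (insert w G)).card ≤ (insert z G).card + 1 := by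
      rw [Finset.insert_comm]
      exact Finset.card_insert_le _ _
    have h5 := Finset.card_insert_le z G
    omega
  have hI : N.Indep ((insert z G : Finset E) : Set E) := by
    refine h2.indep.subset ?_
    intro t ht
    simp only [Finset.mem_coe, Finset.mem_insert] at ht ⊢
    tauto
  obtain ⟨e, he, heB⟩ := aug N hN hI hzc h1
  have heG : e ∉ insert z G := by
    intro h
    have := hN _ heB
    rw [Finset.insert_eq_of_mem h] at this
    omega
  rw [Finset.mem_insert, Finset.mem_insert] at he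
  rcases he with rfl | rfl | he
  · left; exact R_symm heB
  · right; exact R_symm heB
  · exact absurd (Finset.mem_insert_of_mem he) heG

/-- The structure of a square. -/
theorem square {F : Finset E → K} {r : ℕ} (N₁ N₂ : Matroid E)
    (hk₁ : ∀ A : Finset E, N₁.IsBase A → A.card = r)
    (hk₂ : ∀ A : Finset E, N₂.IsBase A → A.card = r)
    (hF : ∀ A : Finset E, F A ≠ 0 ↔ N₁.IsBase A ∧ N₂.IsBase A)
    {P : Finset E → Prop} (hP : Closed F r P) {G : Finset E} (hG : G.card + 2 = r)
    {a₁ a₂ d₁ d₂ : E} (ha1 : R N₁ G a₁ a₂) (ha2 : R N₂ G a₁ a₂) (hd1 : R N₁ G d₁ d₂)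
    (hd2 : R N₂ G d₁ d₂) (hPa : P (insert a₁ (insert a₂ G))) (hPd : ¬ P (insert d₁ (insert d₂ G)))
    {e : E} (he1 : R N₁ G a₁ e) (he2 : R N₁ G a₂ e) : ¬ R N₂ G a₁ e ∧ ¬ R N₂ G a₂ e := by
  classical
  -- adjacent pairs
  have adj : ∀ x y z : E, R N₁ G x y → R N₂ G x y → R N₁ G x z → R N₂ G x z →
      P (insert x (insert y G)) → P (insert x (insert z G)) := by
    intro x y z h1 h2 h3 h4 h5
    refine hP _ _ ((hF _).2 ⟨h1, h2⟩) ((hF _).2 ⟨h3, h4⟩) ?_ h5
    have hxG : x ∉ G := by
      intro h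
      have h6 := hk₁ _ h1
      rw [Finset.insert_eq_of_mem (Finset.mem_insert_of_mem h)] at h6
      have := Finset.card_insert_le y G
      omega
    have h7 : insert x G ⊆ insert x (insert y G) ∩ insert x (insert z G) := by
      intro t ht
      simp only [Finset.mem_insert, Finset.mem_inter] at ht ⊢
      tauto
    have := Finset.card_le_card h7
    rw [Finset.card_insert_of_notMem hxG] at this
    omega
  have sw : ∀ x y : E, P (insert x (insert y G)) → P (insert y (insert x G)) := by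
    intro x y h
    rwa [Finset.insert_comm]
  have nad : ∀ i, (i = a₁ ∨ i = a₂) → ∀ j, (j = d₁ ∨ j = d₂) → ¬ (R N₁ G i j ∧ R N₂ G i j) := by
    rintro i hi j hj ⟨h1, h2⟩
    have h3 : P (insert i (insert j G)) := by
      rcases hi with rfl | rfl
      · exact adj _ _ _ ha1 ha2 h1 h2 hPa
      · exact adj _ _ _ (R_symm ha1) (R_symm ha2) h1 h2 (sw _ _ hPa)
    refine hPd ?_
    rcases hj with rfl | rfl
    · exact adj _ _ _ (R_symm h1) (R_symm h2) hd1 hd2 (sw _ _ h3)
    · exact sw _ _ (adj _ _ _ (R_symm h1) (R_symm h2) (R_symm hd1) (R_symm hd2) (sw _ _ h3))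
  have main : ∀ i, (i = a₁ ∨ i = a₂) → R N₁ G i e → ¬ R N₂ G i e := by
    intro i hi h1 h2
    have hPe : P (insert i (insert e G)) := by
      rcases hi with rfl | rfl
      · exact adj _ _ _ ha1 ha2 h1 h2 hPa
      · exact adj _ _ _ (R_symm ha1) (R_symm ha2) h1 h2 (sw _ _ hPa)
    have ned : ∀ j, (j = d₁ ∨ j = d₂) → ¬ (R N₁ G j e ∧ R N₂ G j e) := by
      rintro j hj ⟨h3, h4⟩
      have h5 : P (insert e (insert j G)) :=
        adj _ _ _ (R_symm h1) (R_symm h2) (R_symm h3) (R_symm h4) (sw _ _ hPe)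
      refine hPd ?_
      rcases hj with rfl | rfl
      · exact adj _ _ _ h3 h4 hd1 hd2 (sw _ _ h5)
      · exact sw _ _ (adj _ _ _ h3 h4 (R_symm hd1) (R_symm hd2) (sw _ _ h5))
    obtain ⟨j, hj, hj2⟩ : ∃ j, (j = d₁ ∨ j = d₂) ∧ R N₂ G e j := by
      rcases R_tri N₂ hk₂ hG hd2 (R_symm h2) with h | h
      · exact ⟨d₁, Or.inl rfl, h⟩
      · exact ⟨d₂, Or.inr rfl, h⟩
    have hj1 : ¬ R N₁ G j e := fun h => ned j hj ⟨h, R_symm hj2⟩
    obtain ⟨w, hw1, hw2⟩ : ∃ w, R N₁ G j w ∧ R N₂ G j w := by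
      rcases hj with rfl | rfl
      · exact ⟨d₂, hd1, hd2⟩
      · exact ⟨d₁, R_symm hd1, R_symm hd2⟩
    have hja1 : R N₁ G j a₁ := (R_tri N₁ hk₁ hG he1 hw1).resolve_right hj1
    have hja2 : R N₁ G j a₂ := (R_tri N₁ hk₁ hG he2 hw1).resolve_right hj1
    rcases R_tri N₂ hk₂ hG ha2 hw2 with h | h
    · exact nad a₁ (Or.inl rfl) j hj ⟨R_symm hja1, R_symm h⟩
    · exact nad a₂ (Or.inr rfl) j hj ⟨R_symm hja2, R_symm h⟩
  exact ⟨main a₁ (Or.inl rfl) he1, main a₂ (Or.inr rfl) he2⟩

/-- **The level step.** -/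
theorem level_step {F : Finset E → K} {r k : ℕ} (N₁ N₂ : Matroid E)
    (hk₁ : ∀ A : Finset E, N₁.IsBase A → A.card = r)
    (hk₂ : ∀ A : Finset E, N₂.IsBase A → A.card = r)
    (hF : ∀ A : Finset E, F A ≠ 0 ↔ N₁.IsBase A ∧ N₂.IsBase A)
    (htot : ∀ C : Finset E, C.card < r → up F C = 0)
    (hE : Fintype.card E = 2 * r) (hc : ∀ A, A.card = r → F Aᶜ = (-1) ^ r * F A)
    {P : Finset E → Prop} (hP : Closed F r P) {C : Finset E} (hC : C.card + k = r) (hk0 : 0 < k)
    (hk : r + 2 < 4 * k)
    (hlev : ∀ P, Closed F r P → ∀ D : Finset E, D.card < r → r < D.card + k →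
      up (part F P) D = 0) : up (part F P) C = 0 := by
  classical
  by_contra hg
  have hF0 : ∀ A, F A ≠ 0 → A.card = r := fun A hA => hk₁ A ((hF A).1 hA).1
  have hcoc : ∀ H : Finset E, C ⊆ H → (∀ A, F A ≠ 0 → ¬ A ⊆ H) → H.card ≤ 2 * C.card :=
    fun H h1 h2 => coc hF0 hE hc hP hC hk0 hlev hg h1 h2
  -- both colours occur
  obtain ⟨A₀, hA₀⟩ : ∃ A, F A ≠ 0 ∧ C ⊆ A ∧ P A := by
    by_contra h
    push Not at h
    refine hg (Finset.sum_eq_zero fun A hA => ?_)
    have hCA := (Finset.mem_filter.1 hA).2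
    unfold part
    split_ifs with hPA
    · by_contra hne
      exact h A hne hCA hPA
    · rfl
  obtain ⟨A₁, hA₁⟩ : ∃ A, F A ≠ 0 ∧ C ⊆ A ∧ ¬ P A := by
    by_contra h
    push Not at h
    refine hg ?_
    rw [← htot C (by omega)]
    refine Finset.sum_congr rfl fun A hA => ?_
    have hCA := (Finset.mem_filter.1 hA).2
    unfold part
    split_ifs with hPA
    · rfl
    · by_contra hne
      exact hPA (h A (Ne.symm hne) hCA)
  obtain ⟨⟨A, A'⟩, hp, hmax⟩ := Finset.exists_max_image
    ((univ : Finset (Finset E × Finset E)).filter fun p =>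
      (F p.1 ≠ 0 ∧ C ⊆ p.1 ∧ P p.1) ∧ (F p.2 ≠ 0 ∧ C ⊆ p.2 ∧ ¬ P p.2))
    (fun p => (p.1 ∩ p.2).card)
    ⟨(A₀, A₁), Finset.mem_filter.2 ⟨Finset.mem_univ _, hA₀, hA₁⟩⟩
  simp only [Finset.mem_filter, Finset.mem_univ, true_and] at hp
  obtain ⟨⟨hFA, hCA, hPA⟩, ⟨hFA', hCA', hPA'⟩⟩ := hp
  have hmax' : ∀ B B' : Finset E, F B ≠ 0 → C ⊆ B → P B → F B' ≠ 0 → C ⊆ B' → ¬ P B' →
      (B ∩ B').card ≤ (A ∩ A').card := by
    intro B B' h1 h2 h3 h4 h5 h6
    exact hmax (B, B') (by
      simp only [Finset.mem_filter, Finset.mem_univ, true_and]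
      exact ⟨⟨h1, h2, h3⟩, ⟨h4, h5, h6⟩⟩)
  have hlt : (A ∩ A').card + 1 < r := by
    by_contra h
    exact hPA' (hP A A' hFA hFA' (by omega) hPA)
  obtain ⟨hA1, hA2⟩ := (hF A).1 hFA
  obtain ⟨hA'1, hA'2⟩ := (hF A').1 hFA'
  have hcA := hk₁ A hA1
  have hcA' := hk₁ A' hA'1
  have hdiff : (A \ A').card + (A ∩ A').card = A.card := Finset.card_sdiff_add_card_inter A A'
  have hdiff' : (A' \ A).card + (A' ∩ A).card = A'.card := Finset.card_sdiff_add_card_inter A' A
  rw [Finset.inter_comm A' A] at hdiff'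
  have huniv : (univ : Finset E).card = 2 * r := by rw [Finset.card_univ, hE]
  rcases Nat.lt_or_ge ((A ∩ A').card + 2) r with hfar | hnear
  · -- distance at least three
    obtain ⟨d, hd⟩ : (A' \ A).Nonempty := by
      rw [← Finset.card_pos]; omega
    rw [Finset.mem_sdiff] at hd
    obtain ⟨a, ha, haB⟩ := rev_exchange N₁ hk₁ hA1 hA'1 hd.1 hd.2
    obtain ⟨b, hb, hbB⟩ := rev_exchange N₂ hk₂ hA2 hA'2 hd.1 hd.2
    obtain ⟨a', ha', hne, hI2⟩ : ∃ a' ∈ A \ A', a' ≠ a ∧
        N₂.Indep ((insert d ((A.erase a).erase a') : Finset E) : Set E) := by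
      have hbI := hbB.indep
      by_cases hab : b = a
      · obtain ⟨a', ha'⟩ : ((A \ A').erase a).Nonempty := by
          rw [← Finset.card_pos, Finset.card_erase_of_mem (Finset.mem_sdiff.2 ha)]; omega
        rw [Finset.mem_erase] at ha'
        refine ⟨a', ha'.2, ha'.1, hbI.subset ?_⟩
        subst hab
        intro x hx
        simp only [Finset.mem_coe, Finset.mem_insert, Finset.mem_erase] at hx ⊢
        rcases hx with rfl | hx
        · exact Or.inl rfl
        · exact Or.inr ⟨hx.2.1, hx.2.2⟩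
      · refine ⟨b, Finset.mem_sdiff.2 hb, hab, hbI.subset ?_⟩
        intro x hx
        simp only [Finset.mem_coe, Finset.mem_insert, Finset.mem_erase] at hx ⊢
        rcases hx with rfl | hx
        · exact Or.inl rfl
        · exact Or.inr ⟨hx.1, hx.2.2⟩
    rw [Finset.mem_sdiff] at ha'
    set G : Finset E := insert d ((A.erase a).erase a') with hG
    have hdG : d ∉ (A.erase a).erase a' := by simp [hd.2]
    have hGc : G.card + 1 = r := by
      rw [hG, Finset.card_insert_of_notMem hdG, Finset.card_erase_of_mem (by simp [hne, ha'.1]),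
        Finset.card_erase_of_mem ha.1]
      omega
    have hI1 : N₁.Indep (G : Set E) := by
      refine haB.indep.subset ?_
      intro x hx
      simp only [hG, Finset.mem_coe, Finset.mem_insert, Finset.mem_erase] at hx ⊢
      rcases hx with rfl | hx
      · exact Or.inl rfl
      · exact Or.inr ⟨hx.2.1, hx.2.2⟩
    have hCG : C ⊆ G := by
      intro x hx
      have h1 := hCA hx
      have h2 := hCA' hx
      simp only [hG, Finset.mem_insert, Finset.mem_erase]
      refine Or.inr ⟨?_, ?_, h1⟩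
      · rintro rfl; exact ha'.2 h2
      · rintro rfl; exact ha.2 h2
    have hGe : ∀ e, ¬ (N₁.IsBase (insert e G : Finset E) ∧ N₂.IsBase (insert e G : Finset E)) := by
      rintro e ⟨hB1, hB2⟩
      set B : Finset E := insert e G with hB
      have hCB : C ⊆ B := hCG.trans (Finset.subset_insert _ _)
      have hFB : F B ≠ 0 := (hF B).2 ⟨hB1, hB2⟩
      by_cases hPB : P B
      · have h3 : insert d (A ∩ A') ⊆ B ∩ A' := by
          intro x hx
          simp only [Finset.mem_insert, Finset.mem_inter] at hx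
          simp only [Finset.mem_inter, hB, hG, Finset.mem_insert, Finset.mem_erase]
          rcases hx with rfl | hx
          · exact ⟨Or.inr (Or.inl rfl), hd.1⟩
          · refine ⟨Or.inr (Or.inr ⟨?_, ?_, hx.1⟩), hx.2⟩
            · rintro rfl; exact ha'.2 hx.2
            · rintro rfl; exact ha.2 hx.2
        have h4 := Finset.card_le_card h3
        rw [Finset.card_insert_of_notMem (by simp [hd.2])] at h4
        have h5 := hmax' B A' hFB hCB hPB hFA' hCA' hPA'
        omega
      · have h1 : (A.erase a).erase a' ⊆ A ∩ B := by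
          intro x hx
          have hx' := hx
          simp only [Finset.mem_erase] at hx'
          simp only [Finset.mem_inter, hB, hG, Finset.mem_insert]
          exact ⟨hx'.2.2, Or.inr (Or.inr hx)⟩
        have h2 : ((A.erase a).erase a').card + 2 = r := by
          rw [Finset.card_erase_of_mem (by simp [hne, ha'.1]), Finset.card_erase_of_mem ha.1]
          omega
        have h3 := Finset.card_le_card h1
        have h5 := hmax' A B hFA hCA hPA hFB hCB hPB
        omega
    let H₁ : Finset E := univ.filter fun e => ¬ N₁.IsBase (insert e G : Finset E)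
    let H₂ : Finset E := univ.filter fun e => ¬ N₂.IsBase (insert e G : Finset E)
    have hGH1 : G ⊆ H₁ := by
      intro e he
      refine Finset.mem_filter.2 ⟨Finset.mem_univ _, fun h => ?_⟩
      have := hk₁ _ h
      rw [Finset.insert_eq_of_mem he] at this
      omega
    have hGH2 : G ⊆ H₂ := by
      intro e he
      refine Finset.mem_filter.2 ⟨Finset.mem_univ _, fun h => ?_⟩
      have := hk₂ _ h
      rw [Finset.insert_eq_of_mem he] at this
      omega
    have hb1 := hcoc H₁ (hCG.trans hGH1) (fun B hB hBH => by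
      obtain ⟨e, he, heB⟩ := aug N₁ hk₁ hI1 hGc ((hF B).1 hB).1
      exact (Finset.mem_filter.1 (hBH he)).2 heB)
    have hb2 := hcoc H₂ (hCG.trans hGH2) (fun B hB hBH => by
      obtain ⟨e, he, heB⟩ := aug N₂ hk₂ hI2 hGc ((hF B).1 hB).2
      exact (Finset.mem_filter.1 (hBH he)).2 heB)
    have hu : H₁ ∪ H₂ = univ := by
      ext e
      simp only [Finset.mem_union, Finset.mem_univ, iff_true]
      by_contra h
      rw [not_or] at h
      refine hGe e ⟨?_, ?_⟩
      · by_contra h'
        exact h.1 (Finset.mem_filter.2 ⟨Finset.mem_univ _, h'⟩)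
      · by_contra h'
        exact h.2 (Finset.mem_filter.2 ⟨Finset.mem_univ _, h'⟩)
    have h1 := Finset.card_union_add_card_inter H₁ H₂
    rw [hu, huniv] at h1
    have h2 := Finset.card_le_card (Finset.subset_inter hGH1 hGH2)
    omega
  · -- distance two
    have hI : (A ∩ A').card + 2 = r := by omega
    set G := A ∩ A' with hG
    have hCG : C ⊆ G := Finset.subset_inter hCA hCA'
    obtain ⟨a₁, a₂, ha12, hAd⟩ := Finset.card_eq_two.1 (show (A \ A').card = 2 by omega)
    obtain ⟨d₁, d₂, hd12, hAd'⟩ := Finset.card_eq_two.1 (show (A' \ A).card = 2 by omega)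
    have hAeq : A = insert a₁ (insert a₂ G) := by
      ext x
      have h1 : x ∈ A \ A' ↔ x = a₁ ∨ x = a₂ := by rw [hAd]; simp
      rw [Finset.mem_sdiff] at h1
      simp only [Finset.mem_insert, hG, Finset.mem_inter]
      tauto
    have hA'eq : A' = insert d₁ (insert d₂ G) := by
      ext x
      have h1 : x ∈ A' \ A ↔ x = d₁ ∨ x = d₂ := by rw [hAd']; simp
      rw [Finset.mem_sdiff] at h1
      simp only [Finset.mem_insert, hG, Finset.mem_inter]
      tauto
    have ha1 : R N₁ G a₁ a₂ := by unfold R; rw [← hAeq]; exact hA1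
    have ha2 : R N₂ G a₁ a₂ := by unfold R; rw [← hAeq]; exact hA2
    have hd1 : R N₁ G d₁ d₂ := by unfold R; rw [← hA'eq]; exact hA'1
    have hd2 : R N₂ G d₁ d₂ := by unfold R; rw [← hA'eq]; exact hA'2
    have hPa : P (insert a₁ (insert a₂ G)) := by rw [← hAeq]; exact hPA
    have hPd : ¬ P (insert d₁ (insert d₂ G)) := by rw [← hA'eq]; exact hPA'
    -- the four hyperplanes
    let Hy : Matroid E → E → Finset E := fun N a => univ.filter fun e => ¬ R N G a e
    have hGHy : ∀ (N : Matroid E), (∀ A : Finset E, N.IsBase A → A.card = r) → ∀ a,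
        G ⊆ Hy N a := by
      intro N hN a e he
      refine Finset.mem_filter.2 ⟨Finset.mem_univ _, fun h => ?_⟩
      have h1 := hN _ h
      rw [Finset.insert_eq_of_mem he] at h1
      have := Finset.card_insert_le a G
      omega
    have hnob : ∀ (N : Matroid E), (∀ A : Finset E, N.IsBase A → A.card = r) → ∀ a b,
        R N G a b → ∀ B : Finset E, N.IsBase B → ¬ B ⊆ Hy N a := by
      intro N hN a b hab B hB hBH
      have h1 : N.Indep ((insert a G : Finset E) : Set E) := by
        refine (show N.Indep _ from hab.indep).subset ?_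
        intro t ht
        simp only [Finset.mem_coe, Finset.mem_insert] at ht ⊢
        tauto
      have h2 : (insert a G).card + 1 = r := by
        have h3 := hN _ hab
        have h4 : (insert a (insert b G)).card ≤ (insert a G).card + 1 := by
          rw [Finset.insert_comm]
          exact Finset.card_insert_le _ _
        have h5 := Finset.card_insert_le a G
        omega
      obtain ⟨e, he, heB⟩ := aug N hN h1 h2 hB
      exact (Finset.mem_filter.1 (hBH he)).2 (R_symm heB)
    have hbound1 : ∀ a b, R N₁ G a b → (Hy N₁ a).card ≤ 2 * C.card := fun a b hab =>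
      hcoc _ (hCG.trans (hGHy N₁ hk₁ a)) fun B hB => hnob N₁ hk₁ a b hab B ((hF B).1 hB).1
    have hbound2 : ∀ a b, R N₂ G a b → (Hy N₂ a).card ≤ 2 * C.card := fun a b hab =>
      hcoc _ (hCG.trans (hGHy N₂ hk₂ a)) fun B hB => hnob N₂ hk₂ a b hab B ((hF B).1 hB).2
    have b1 := hbound1 a₁ a₂ ha1
    have b2 := hbound1 a₂ a₁ (R_symm ha1)
    have b3 := hbound2 a₁ a₂ ha2
    have b4 := hbound2 a₂ a₁ (R_symm ha2)
    -- generic elements
    have gen1 : (Hy N₁ a₁ ∪ Hy N₁ a₂)ᶜ ∪ G ⊆ Hy N₂ a₁ ∩ Hy N₂ a₂ := by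
      intro e he
      rcases Finset.mem_union.1 he with he | he
      · simp only [Finset.mem_compl, Finset.mem_union, Hy, Finset.mem_filter, Finset.mem_univ,
          true_and, not_or, not_not] at he
        have := square N₁ N₂ hk₁ hk₂ hF hP hI ha1 ha2 hd1 hd2 hPa hPd he.1 he.2
        exact Finset.mem_inter.2 ⟨Finset.mem_filter.2 ⟨Finset.mem_univ _, this.1⟩,
          Finset.mem_filter.2 ⟨Finset.mem_univ _, this.2⟩⟩
      · exact Finset.mem_inter.2 ⟨hGHy N₂ hk₂ a₁ he, hGHy N₂ hk₂ a₂ he⟩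
    have gen2 : (Hy N₂ a₁ ∪ Hy N₂ a₂)ᶜ ∪ G ⊆ Hy N₁ a₁ ∩ Hy N₁ a₂ := by
      intro e he
      rcases Finset.mem_union.1 he with he | he
      · simp only [Finset.mem_compl, Finset.mem_union, Hy, Finset.mem_filter, Finset.mem_univ,
          true_and, not_or, not_not] at he
        have := square N₂ N₁ hk₂ hk₁ (fun A => (hF A).trans and_comm) hP hI ha2 ha1 hd2 hd1 hPa
          hPd he.1 he.2
        exact Finset.mem_inter.2 ⟨Finset.mem_filter.2 ⟨Finset.mem_univ _, this.1⟩,
          Finset.mem_filter.2 ⟨Finset.mem_univ _, this.2⟩⟩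
      · exact Finset.mem_inter.2 ⟨hGHy N₁ hk₁ a₁ he, hGHy N₁ hk₁ a₂ he⟩
    have dis1 : Disjoint (Hy N₁ a₁ ∪ Hy N₁ a₂)ᶜ G := by
      rw [Finset.disjoint_left]
      intro e he heG
      exact Finset.mem_compl.1 he (Finset.mem_union_left _ (hGHy N₁ hk₁ a₁ heG))
    have dis2 : Disjoint (Hy N₂ a₁ ∪ Hy N₂ a₂)ᶜ G := by
      rw [Finset.disjoint_left]
      intro e he heG
      exact Finset.mem_compl.1 he (Finset.mem_union_left _ (hGHy N₂ hk₂ a₁ heG))
    have c1 := Finset.card_le_card gen1
    have c2 := Finset.card_le_card gen2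
    rw [Finset.card_union_of_disjoint dis1, Finset.card_compl, hE] at c1
    rw [Finset.card_union_of_disjoint dis2, Finset.card_compl, hE] at c2
    have c3 := Finset.card_union_add_card_inter (Hy N₁ a₁) (Hy N₁ a₂)
    have c4 := Finset.card_union_add_card_inter (Hy N₂ a₁) (Hy N₂ a₂)
    omega

end Pool.Agent.G2Swap.Levels
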