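import Mathlib

set_option autoImplicit false

namespace Pool.Agent.G2Swap.Levels

open Finset

variable {E : Type*} [Fintype E] [DecidableEq E]

/-- Inclusion-exclusion: the sum over the sets disjoint from `Z`. -/
theorem sum_disjoint {K : Type*} [CommRing K] (f : Finset E → K) (Z : Finset E) :
    ∑ A ∈ univ.filter (fun A => Disjoint A Z), f A =
      ∑ D ∈ Z.powerset, (-1) ^ D.card * ∑ A ∈ univ.filter (fun A => D ⊆ A), f A := by
  classical
  have h1 : ∀ D ∈ Z.powerset, (-1 : K) ^ D.card * ∑ A ∈ univ.filter (fun A => D ⊆ A), f A =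
      ∑ A : Finset E, if D ⊆ A then (-1 : K) ^ D.card * f A else 0 := by
    intro D _
    rw [Finset.sum_filter, Finset.mul_sum]
    refine Finset.sum_congr rfl fun A _ => ?_
    split_ifs <;> simp
  rw [Finset.sum_congr rfl h1, Finset.sum_comm, Finset.sum_filter]
  refine Finset.sum_congr rfl fun A _ => ?_
  have h2 : ∑ D ∈ Z.powerset, (if D ⊆ A then (-1 : K) ^ D.card * f A else 0) =
      (∑ D ∈ (Z ∩ A).powerset, (-1 : K) ^ D.card) * f A := by
    rw [Finset.sum_mul, ← Finset.sum_filter]
    refine Finset.sum_congr ?_ fun _ _ => rfl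
    ext D
    simp only [Finset.mem_filter, Finset.mem_powerset, Finset.subset_inter_iff]
  have h3 : (∑ D ∈ (Z ∩ A).powerset, (-1 : K) ^ D.card) = if Z ∩ A = ∅ then 1 else 0 := by
    have := congrArg (Int.cast : ℤ → K) (Finset.sum_powerset_neg_one_pow_card (x := Z ∩ A))
    push_cast at this
    simpa using this
  rw [h2, h3]
  by_cases h : Disjoint A Z
  · rw [if_pos h, if_pos (Finset.disjoint_iff_inter_eq_empty.1 h.symm), one_mul]
  · rw [if_neg h, if_neg (fun h' => h (Finset.disjoint_iff_inter_eq_empty.2 h').symm), zero_mul]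

variable {K : Type*} [Field K]

/-- The sum over the sets containing `C`. -/
noncomputable def up (f : Finset E → K) (C : Finset E) : K :=
  ∑ A ∈ univ.filter (fun A => C ⊆ A), f A

/-- The sum over the sets containing `C` and disjoint from `D`. -/
noncomputable def updis (f : Finset E → K) (C D : Finset E) : K :=
  ∑ A ∈ univ.filter (fun A => C ⊆ A ∧ Disjoint A D), f A

theorem up_eq_ite (f : Finset E → K) (C : Finset E) :
    up f C = ∑ A, if C ⊆ A then f A else 0 := by
  rw [up, Finset.sum_filter]

/-- Inclusion-exclusion over `D`. -/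
theorem updis_eq (f : Finset E → K) (C D : Finset E) :
    updis f C D = ∑ D' ∈ D.powerset, (-1) ^ D'.card * up f (C ∪ D') := by
  classical
  have h := sum_disjoint (fun A => if C ⊆ A then f A else 0) D
  have e1 : ∑ A ∈ univ.filter (fun A => Disjoint A D), (if C ⊆ A then f A else 0) =
      updis f C D := by
    rw [updis, ← Finset.sum_filter, Finset.filter_filter]
    refine Finset.sum_congr ?_ fun _ _ => rfl
    ext A; simp [and_comm]
  rw [← e1, h]
  refine Finset.sum_congr rfl fun D' _ => ?_
  congr 1
  rw [up_eq_ite, Finset.sum_filter]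
  refine Finset.sum_congr rfl fun A _ => ?_
  by_cases h1 : C ⊆ A <;> by_cases h2 : D' ⊆ A <;> simp [h1, h2, Finset.union_subset_iff]

/-- sets of size `r` only. -/
theorem up_big {f : Finset E → K} {r : ℕ} (hf : ∀ A, f A ≠ 0 → A.card = r) {C : Finset E}
    (hC : r < C.card) : up f C = 0 := by
  refine Finset.sum_eq_zero fun A hA => ?_
  by_contra h
  have h1 := hf A h
  have h2 := Finset.card_le_card (Finset.mem_filter.1 hA).2
  omega

theorem up_top {f : Finset E → K} {r : ℕ} (hf : ∀ A, f A ≠ 0 → A.card = r) {C : Finset E}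
    (hC : C.card = r) : up f C = f C := by
  rw [up, Finset.sum_eq_single_of_mem C (by simp)]
  intro A hA hne
  by_contra h
  have h1 := hf A h
  exact hne (Finset.eq_of_subset_of_card_le (Finset.mem_filter.1 hA).2 (by omega)).symm

/-- (b) division. -/
theorem up_div {f : Finset E → K} {r k : ℕ} (hf : ∀ A, f A ≠ 0 → A.card = r) {C : Finset E}
    (hC : C.card + k = r) (hk : (k : K) ≠ 0) (h : ∀ e, e ∉ C → up f (insert e C) = 0) :
    up f C = 0 := by
  classical
  have h1 : (k : K) * up f C = ∑ e ∈ Cᶜ, up f (insert e C) := by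
    have h2 : ∀ e ∈ Cᶜ, up f (insert e C) = ∑ A ∈ univ.filter (fun A => C ⊆ A),
        if e ∈ A then f A else 0 := by
      intro e he
      rw [up, ← Finset.sum_filter, Finset.filter_filter]
      refine Finset.sum_congr ?_ fun _ _ => rfl
      ext A
      simp only [Finset.mem_filter, Finset.mem_univ, true_and, Finset.insert_subset_iff]
      tauto
    rw [Finset.sum_congr rfl h2, Finset.sum_comm, up, Finset.mul_sum]
    refine Finset.sum_congr rfl fun A hA => ?_
    by_cases hA0 : f A = 0
    · simp [hA0]
    have hAc := hf A hA0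
    have hCA := (Finset.mem_filter.1 hA).2
    rw [← Finset.sum_filter, Finset.sum_const, nsmul_eq_mul]
    congr 2
    have e1 : (Cᶜ.filter fun e => e ∈ A) = A \ C := by
      ext x; simp [and_comm]
    rw [e1, Finset.card_sdiff_of_subset hCA]
    omega
  have h3 : (k : K) * up f C = 0 := by
    rw [h1]
    exact Finset.sum_eq_zero fun e he => h e (Finset.mem_compl.1 he)
  exact (mul_eq_zero.1 h3).resolve_left hk

/-- The inclusion-exclusion formula when all levels above `C` vanish. -/
theorem updis_formula {f : Finset E → K} {r k : ℕ} (hf : ∀ A, f A ≠ 0 → A.card = r)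
    {C Z : Finset E} (hCZ : Disjoint C Z) (hC : C.card + k = r) (hk0 : 0 < k)
    (h : ∀ D, C ⊂ D → D.card < r → up f D = 0) :
    updis f C Z = up f C + (-1) ^ k * ∑ D ∈ Z.powersetCard k, f (C ∪ D) := by
  classical
  rw [updis_eq, ← Finset.add_sum_erase _ _ (Finset.empty_mem_powerset Z)]
  simp only [Finset.card_empty, pow_zero, one_mul, Finset.union_empty]
  congr 1
  rw [Finset.mul_sum]
  have hsub : Z.powersetCard k ⊆ Z.powerset.erase ∅ := by
    intro D hD
    rw [Finset.mem_powersetCard] at hD
    rw [Finset.mem_erase, Finset.mem_powerset]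
    refine ⟨?_, hD.1⟩
    rintro rfl
    rw [Finset.card_empty] at hD
    omega
  rw [← Finset.sum_subset hsub]
  · refine Finset.sum_congr rfl fun D hD => ?_
    rw [Finset.mem_powersetCard] at hD
    have hd : Disjoint C D := Finset.disjoint_of_subset_right hD.1 hCZ
    rw [up_top hf (by rw [Finset.card_union_of_disjoint hd]; omega), hD.2]
  · intro D hD hD'
    rw [Finset.mem_erase, Finset.mem_powerset] at hD
    rw [Finset.mem_powersetCard, not_and] at hD'
    have hne := hD' hD.2
    have hd : Disjoint C D := Finset.disjoint_of_subset_right hD.2 hCZ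
    have hcard := Finset.card_union_of_disjoint hd
    have hpos : 0 < D.card := Finset.card_pos.2 (Finset.nonempty_iff_ne_empty.2 hD.1)
    rcases lt_or_gt_of_ne hne with hlt | hgt
    · rw [h (C ∪ D) ?_ (by omega), mul_zero]
      refine Finset.ssubset_iff_subset_ne.2 ⟨Finset.subset_union_left, fun he => ?_⟩
      have := congrArg Finset.card he
      omega
    · rw [up_big hf (by omega), mul_zero]

theorem sum_all {f : Finset E → K} {r k : ℕ} (hf : ∀ A, f A ≠ 0 → A.card = r) {C : Finset E}
    (hC : C.card + k = r) : ∑ D ∈ (Cᶜ).powersetCard k, f (C ∪ D) = up f C := by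
  classical
  have e1 : up f C = ∑ A ∈ univ.filter (fun A => C ⊆ A ∧ A.card = r), f A := by
    rw [up]
    refine (Finset.sum_subset ?_ ?_).symm
    · intro A hA
      rw [Finset.mem_filter] at hA ⊢
      exact ⟨hA.1, hA.2.1⟩
    · intro A hA hA'
      by_contra h
      exact hA' (Finset.mem_filter.2 ⟨Finset.mem_univ _, (Finset.mem_filter.1 hA).2, hf A h⟩)
  rw [e1]
  refine Finset.sum_nbij' (fun D => C ∪ D) (fun A => A \ C) ?_ ?_ ?_ ?_ ?_
  · intro D hD
    rw [Finset.mem_powersetCard] at hD
    have hd : Disjoint C D := by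
      rw [Finset.disjoint_left]
      intro x hx hx'
      exact (Finset.mem_compl.1 (hD.1 hx')) hx
    rw [Finset.mem_filter]
    exact ⟨Finset.mem_univ _, Finset.subset_union_left, by
      rw [Finset.card_union_of_disjoint hd]; omega⟩
  · intro A hA
    rw [Finset.mem_filter] at hA
    rw [Finset.mem_powersetCard, Finset.card_sdiff_of_subset hA.2.1]
    refine ⟨?_, by omega⟩
    intro x hx
    rw [Finset.mem_sdiff] at hx
    exact Finset.mem_compl.2 hx.2
  · intro D hD
    rw [Finset.mem_powersetCard] at hD
    ext x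
    simp only [Finset.mem_sdiff, Finset.mem_union]
    constructor
    · rintro ⟨h1 | h1, h2⟩
      · exact absurd h1 h2
      · exact h1
    · intro h1
      exact ⟨Or.inr h1, Finset.mem_compl.1 (hD.1 h1)⟩
  · intro A hA
    exact Finset.union_sdiff_of_subset (Finset.mem_filter.1 hA).2.1
  · intro D _
    rfl

/-- (c) even levels. -/
theorem up_even {f : Finset E → K} {r k : ℕ} (hf : ∀ A, f A ≠ 0 → A.card = r) {C : Finset E}
    (hC : C.card + k = r) (hk : Even k) (hk0 : 0 < k) (h2 : (2 : K) ≠ 0)
    (h : ∀ D, C ⊂ D → D.card < r → up f D = 0) : up f C = 0 := by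
  classical
  have h1 := updis_formula hf (Z := Cᶜ) disjoint_compl_right hC hk0 h
  have h0 : updis f C Cᶜ = 0 := by
    refine Finset.sum_eq_zero fun A hA => ?_
    by_contra hne
    have hAc := hf A hne
    have hAC : A ⊆ C := by
      intro x hx
      by_contra hxC
      exact Finset.disjoint_left.1 (Finset.mem_filter.1 hA).2.2 hx (Finset.mem_compl.2 hxC)
    have := Finset.card_le_card hAC
    omega
  rw [h0, sum_all hf hC, hk.neg_one_pow, one_mul, ← two_mul] at h1
  exact (mul_eq_zero.1 h1.symm).resolve_left h2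

theorem updis_compl (f : Finset E → K) (C D : Finset E) :
    updis f C D = updis (fun A => f Aᶜ) D C := by
  classical
  rw [updis, updis, Finset.sum_filter, Finset.sum_filter]
  refine Finset.sum_nbij' (fun A => Aᶜ) (fun A => Aᶜ) (by simp) (by simp) (by simp) (by simp) ?_
  intro A _
  have e : (C ⊆ A ∧ Disjoint A D) ↔ (D ⊆ Aᶜ ∧ Disjoint Aᶜ C) := by
    constructor
    · rintro ⟨h1, h2⟩
      refine ⟨fun x hx => Finset.mem_compl.2 fun hxA => Finset.disjoint_left.1 h2 hxA hx, ?_⟩
      rw [Finset.disjoint_left]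
      intro x hx hxC
      exact Finset.mem_compl.1 hx (h1 hxC)
    · rintro ⟨h1, h2⟩
      refine ⟨fun x hx => ?_, ?_⟩
      · by_contra hxA
        exact Finset.disjoint_left.1 h2 (Finset.mem_compl.2 hxA) hx
      · rw [Finset.disjoint_left]
        intro x hx hxD
        exact Finset.mem_compl.1 (h1 hxD) hx
  simp only [compl_compl]
  exact if_congr e rfl rfl

/-- (d) duality. -/
theorem up_dual {f : Finset E → K} {r k : ℕ}
    (hE : Fintype.card E = 2 * r) {C : Finset E} (hC : C.card + k = r) (hk : r + 2 ≤ 2 * k)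
    (h : ∀ D : Finset E, C.card < D.card → D.card < r → up f D = 0)
    (h' : ∀ D : Finset E, C.card < D.card → D.card < r → up (fun A => f Aᶜ) D = 0) :
    up f C = 0 := by
  classical
  obtain ⟨D, hD, hDc⟩ : ∃ D ⊆ Cᶜ, D.card = C.card + 1 := by
    refine Finset.exists_subset_card_eq ?_
    rw [Finset.card_compl]
    omega
  have hd : Disjoint C D := by
    rw [Finset.disjoint_left]
    intro x hx hx'
    exact (Finset.mem_compl.1 (hD hx')) hx
  have h1 : updis f C D = up f C := by
    rw [updis_eq, ← Finset.add_sum_erase _ _ (Finset.empty_mem_powerset D)]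
    simp only [Finset.card_empty, pow_zero, one_mul, Finset.union_empty]
    rw [add_eq_left]
    refine Finset.sum_eq_zero fun D' hD' => ?_
    rw [Finset.mem_erase, Finset.mem_powerset] at hD'
    have hd' : Disjoint C D' := Finset.disjoint_of_subset_right hD'.2 hd
    have hcard := Finset.card_union_of_disjoint hd'
    have hpos : 0 < D'.card := Finset.card_pos.2 (Finset.nonempty_iff_ne_empty.2 hD'.1)
    have hle := Finset.card_le_card hD'.2
    rw [h _ (by omega) (by omega), mul_zero]
  have h2 : updis f C D = 0 := by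
    rw [updis_compl, updis_eq]
    refine Finset.sum_eq_zero fun C' hC' => ?_
    rw [Finset.mem_powerset] at hC'
    have hd' : Disjoint D C' := (Finset.disjoint_of_subset_left hC' hd).symm
    have hcard := Finset.card_union_of_disjoint hd'
    have hle := Finset.card_le_card hC'
    rw [h' _ (by omega) (by omega), mul_zero]
  rw [← h1, h2]

/-- Closed under single exchanges in the support of `F`. -/
def Closed (F : Finset E → K) (r : ℕ) (P : Finset E → Prop) : Prop :=
  ∀ A A', F A ≠ 0 → F A' ≠ 0 → r ≤ (A ∩ A').card + 1 → P A → P A'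

open Classical in
/-- The part of `F` on `P`. -/
noncomputable def part (F : Finset E → K) (P : Finset E → Prop) (A : Finset E) : K :=
  if P A then F A else 0

theorem part_card {F : Finset E → K} {r : ℕ} (hF : ∀ A, F A ≠ 0 → A.card = r)
    (P : Finset E → Prop) (A : Finset E) (h : part F P A ≠ 0) : A.card = r := by
  unfold part at h
  split_ifs at h with hP
  · exact hF A h
  · exact absurd rfl h

theorem closed_compl {F : Finset E → K} {r : ℕ} (hF : ∀ A, F A ≠ 0 → A.card = r)
    (hE : Fintype.card E = 2 * r) (hc : ∀ A, A.card = r → F Aᶜ = (-1) ^ r * F A)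
    {P : Finset E → Prop} (hP : Closed F r P) : Closed F r (fun A => P Aᶜ) := by
  intro A A' hA hA' hle hPA
  have h1 : F Aᶜ ≠ 0 := by
    rw [hc A (hF A hA)]
    exact mul_ne_zero (pow_ne_zero _ (by simp)) hA
  have h2 : F A'ᶜ ≠ 0 := by
    rw [hc A' (hF A' hA')]
    exact mul_ne_zero (pow_ne_zero _ (by simp)) hA'
  refine hP Aᶜ A'ᶜ h1 h2 ?_ hPA
  have h3 : (Aᶜ ∩ A'ᶜ) = (A ∪ A')ᶜ := by rw [Finset.compl_union]
  rw [h3, Finset.card_compl]
  have h4 := Finset.card_union_add_card_inter A A'
  have h5 := hF A hA
  have h6 := hF A' hA'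
  omega

/-- Level one. -/
theorem level_one {F : Finset E → K} {r : ℕ} (htot : ∀ C : Finset E, C.card < r → up F C = 0)
    {P : Finset E → Prop} (hP : Closed F r P) {C : Finset E} (hC : C.card + 1 = r) :
    up (part F P) C = 0 := by
  classical
  by_cases h : ∃ A₀, C ⊆ A₀ ∧ F A₀ ≠ 0 ∧ P A₀
  · obtain ⟨A₀, h1, h2, h3⟩ := h
    rw [← htot C (by omega)]
    refine Finset.sum_congr rfl fun A hA => ?_
    have hCA := (Finset.mem_filter.1 hA).2
    unfold part
    split_ifs with hPA
    · rfl
    · by_contra hne
      refine hPA (hP A₀ A h2 (Ne.symm hne) ?_ h3)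
      have := Finset.card_le_card (Finset.subset_inter h1 hCA)
      omega
  · refine Finset.sum_eq_zero fun A hA => ?_
    have hCA := (Finset.mem_filter.1 hA).2
    unfold part
    split_ifs with hPA
    · by_contra hne
      exact h ⟨A, hCA, hne, hPA⟩
    · rfl

theorem part_compl {F : Finset E → K} {r : ℕ} (hF : ∀ A, F A ≠ 0 → A.card = r)
    (hE : Fintype.card E = 2 * r) (hc : ∀ A, A.card = r → F Aᶜ = (-1) ^ r * F A)
    (P : Finset E → Prop) (A : Finset E) :
    part F P Aᶜ = (-1) ^ r * part F (fun A => P Aᶜ) A := by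
  unfold part
  by_cases hA : A.card = r
  · rw [hc A hA]
    split_ifs <;> simp
  · have h1 : F A = 0 := by
      by_contra h
      exact hA (hF A h)
    have h2 : F Aᶜ = 0 := by
      by_contra h
      have := hF _ h
      rw [Finset.card_compl] at this
      have := Finset.card_le_univ A
      omega
    rw [h1, h2]
    split_ifs <;> simp

/-- **All levels.** -/
theorem levels_all {F : Finset E → K} {r : ℕ} (hF : ∀ A, F A ≠ 0 → A.card = r)
    (htot : ∀ C : Finset E, C.card < r → up F C = 0)
    (hE : Fintype.card E = 2 * r) (hc : ∀ A, A.card = r → F Aᶜ = (-1) ^ r * F A)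
    (hlow : ∀ k : ℕ, 2 ≤ k → (k : K) = 0 → 2 * k ≤ r + 1 → (Odd k ∨ (2 : K) = 0) →
      (∀ P, Closed F r P → ∀ D : Finset E, D.card < r → r < D.card + k → up (part F P) D = 0) →
      ∀ P, Closed F r P → ∀ C : Finset E, C.card + k = r → up (part F P) C = 0) (k : ℕ) :
    ∀ P, Closed F r P → ∀ C : Finset E, C.card + k = r → 0 < k → up (part F P) C = 0 := by
  induction k using Nat.strong_induction_on with
  | _ k ih =>
  intro P hP C hC hk
  have hlev : ∀ P, Closed F r P → ∀ D : Finset E, D.card < r → r < D.card + k →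
      up (part F P) D = 0 := by
    intro P hP D hD1 hD2
    exact ih (r - D.card) (by omega) P hP D (by omega) (by omega)
  have hf := part_card hF P
  obtain rfl | h2k : k = 1 ∨ 2 ≤ k := by omega
  · exact level_one htot hP hC
  by_cases hk1 : (k : K) ≠ 0
  · refine up_div hf hC hk1 fun e he => ?_
    refine hlev P hP _ ?_ ?_
    · rw [Finset.card_insert_of_notMem he]; omega
    · rw [Finset.card_insert_of_notMem he]; omega
  rw [not_not] at hk1
  by_cases hev : Odd k ∨ (2 : K) = 0
  · by_cases hd : 2 * k ≤ r + 1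
    · exact hlow k h2k hk1 hd hev hlev P hP C hC
    · refine up_dual hE hC (by omega) (fun D h1 h2 => hlev P hP D h2 (by omega)) ?_
      intro D h1 h2
      have h3 := hlev _ (closed_compl hF hE hc hP) D h2 (by omega)
      have h4 : up (fun A => part F P Aᶜ) D = (-1) ^ r * up (part F fun A => P Aᶜ) D := by
        rw [up, up, Finset.mul_sum]
        exact Finset.sum_congr rfl fun A _ => part_compl hF hE hc P A
      rw [h4, h3, mul_zero]
  · rw [not_or] at hev
    refine up_even hf hC (Nat.not_odd_iff_even.1 hev.1) hk hev.2 fun D hCD hD => ?_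
    have := Finset.card_lt_card hCD
    exact hlev P hP D hD (by omega)

/-- A single exchange in the support of `F`. -/
def Step1 (F : Finset E → K) (r : ℕ) (A A' : Finset E) : Prop :=
  F A' ≠ 0 ∧ r ≤ (A ∩ A').card + 1

/-- **Single exchanges from `S` to its complement.** -/
theorem reach_single {F : Finset E → K} {r : ℕ} (hF : ∀ A, F A ≠ 0 → A.card = r)
    (htot : ∀ C : Finset E, C.card < r → up F C = 0)
    (hE : Fintype.card E = 2 * r) (hc : ∀ A, A.card = r → F Aᶜ = (-1) ^ r * F A)
    (hlow : ∀ k : ℕ, 2 ≤ k → (k : K) = 0 → 2 * k ≤ r + 1 → (Odd k ∨ (2 : K) = 0) →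
      (∀ P, Closed F r P → ∀ D : Finset E, D.card < r → r < D.card + k → up (part F P) D = 0) →
      ∀ P, Closed F r P → ∀ C : Finset E, C.card + k = r → up (part F P) C = 0)
    {S : Finset E} (hS : F S ≠ 0) : Relation.ReflTransGen (Step1 F r) S Sᶜ := by
  classical
  have hSc := hF S hS
  have hScc : Sᶜ.card = r := by
    rw [Finset.card_compl]; omega
  rcases Nat.eq_zero_or_pos r with hr0 | hr
  · have h1 : S = ∅ := Finset.card_eq_zero.1 (by omega)
    have h2 : Sᶜ = ∅ := Finset.card_eq_zero.1 (by omega)
    rw [h2, h1]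
  let P : Finset E → Prop := fun A => Relation.ReflTransGen (Step1 F r) S A
  have hP : Closed F r P := fun A A' _ hA' hle hPA => hPA.tail ⟨hA', hle⟩
  have hf := part_card hF P
  have hlev : ∀ D : Finset E, D.card < r → up (part F P) D = 0 := fun D hD =>
    levels_all hF htot hE hc hlow (r - D.card) P hP D (by omega) (by omega)
  have h1 := updis_eq (part F P) ∅ S
  have h2 : updis (part F P) ∅ S = part F P Sᶜ := by
    rw [updis, Finset.sum_eq_single_of_mem Sᶜ]
    · simp [disjoint_compl_left]
    · intro A hA hne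
      by_contra h
      have hAc := hf A h
      refine hne (Finset.eq_of_subset_of_card_le ?_ (by omega))
      intro x hx
      exact Finset.mem_compl.2 (Finset.disjoint_left.1 (Finset.mem_filter.1 hA).2.2 hx)
  have h3 : ∑ D ∈ S.powerset, (-1) ^ D.card * up (part F P) (∅ ∪ D) = (-1) ^ r * part F P S := by
    rw [Finset.sum_eq_single_of_mem S (Finset.mem_powerset_self S)]
    · rw [Finset.empty_union, up_top hf hSc, hSc]
    · intro D hD hne
      rw [Finset.mem_powerset] at hD
      have hlt : D.card < S.card := Finset.card_lt_card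
        (Finset.ssubset_iff_subset_ne.2 ⟨hD, hne⟩)
      rw [Finset.empty_union, hlev D (by omega), mul_zero]
  have hPS : part F P S = F S := if_pos Relation.ReflTransGen.refl
  rw [h2, h3, hPS] at h1
  by_contra hcon
  have h4 : part F P Sᶜ = 0 := if_neg hcon
  rw [h4] at h1
  exact mul_ne_zero (pow_ne_zero _ (by simp)) hS h1.symm

end Pool.Agent.G2Swap.Levels
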