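import Mathlib

set_option autoImplicit false

namespace Pool.Agent.G2Swap

open Finset Module

variable {E : Type*} [Fintype E] [DecidableEq E] {K : Type*} [Field K] {r : ℕ}

theorem ncard_le_of_span {V : Type*} [AddCommGroup V] [Module K V] (v : E → V) {I J : Set E}
    (hJ : LinearIndepOn K v J) (h : ∀ e ∈ J, v e ∈ Submodule.span K (v '' I)) :
    J.ncard ≤ I.ncard := by
  classical
  let f : J → Submodule.span K (v '' I) := fun x => ⟨v x, h x x.2⟩
  have hf : LinearIndependent K f :=
    LinearIndependent.of_comp (Submodule.subtype _) (by exact hJ)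
  have : FiniteDimensional K (Submodule.span K (v '' I)) :=
    FiniteDimensional.span_of_finite K ((Set.toFinite I).image v)
  have h1 := hf.fintype_card_le_finrank
  have h2 : finrank K (Submodule.span K (v '' I)) ≤ (v '' I).ncard := by
    have := finrank_span_le_card (R := K) (v '' I)
    rwa [← Set.ncard_eq_toFinset_card'] at this
  have h3 := Set.ncard_image_le (f := v) (Set.toFinite I)
  have h4 : Fintype.card J = J.ncard := by
    rw [Set.ncard_eq_toFinset_card', Set.toFinset_card]
  omega

/-- The linear matroid. -/
def linIndep {V : Type*} [AddCommGroup V] [Module K V] (v : E → V) : IndepMatroid E :=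
  IndepMatroid.ofFinite (Set.finite_univ) (fun I => LinearIndepOn K v I)
    (linearIndepOn_empty K v) (fun I J hJ hIJ => hJ.mono hIJ)
    (by
      intro I J hI hJ hlt
      by_contra hcon
      push Not at hcon
      have h1 : ∀ e ∈ J, v e ∈ Submodule.span K (v '' I) := by
        intro e he
        by_contra hne
        have heI : e ∉ I := fun h => hne (Submodule.subset_span ⟨e, h, rfl⟩)
        exact hcon e he heI ((linearIndepOn_insert heI).2 ⟨hI, hne⟩)
      have := ncard_le_of_span v hJ h1
      omega)
    (fun I _ => Set.subset_univ I)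

theorem exists_linear_matroid (v : E → Fin r → K) (S : Finset E) (hS : S.card = r)
    (hSi : LinearIndepOn K v (S : Set E)) :
    ∃ N : Matroid E, N.E = Set.univ ∧ ∀ A : Finset E, N.IsBase (A : Set E) ↔
      A.card = r ∧ LinearIndepOn K v (A : Set E) := by
  classical
  have hle : ∀ I : Set E, LinearIndepOn K v I → I.ncard ≤ r := by
    intro I hI
    have h1 := LinearIndependent.fintype_card_le_finrank (R := K) (M := Fin r → K)
      (b := fun x : I => v x) hI
    rw [Module.finrank_fin_fun] at h1
    have h4 : Fintype.card I = I.ncard := by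
      rw [Set.ncard_eq_toFinset_card', Set.toFinset_card]
    omega
  have hind : ∀ I, (linIndep (K := K) v).matroid.Indep I ↔ LinearIndepOn K v I := fun I => Iff.rfl
  have hb : ∀ A : Finset E, A.card = r → LinearIndepOn K v (A : Set E) →
      (linIndep (K := K) v).matroid.IsBase (A : Set E) := by
    intro A hA hAi
    rw [Matroid.isBase_iff_maximal_indep]
    refine ⟨hAi, ?_⟩
    intro I hI hAI
    have h1 := hle I hI
    have h2 : (A : Set E).ncard = r := by rw [Set.ncard_coe_finset, hA]
    have h3 := Set.eq_of_subset_of_ncard_le hAI (by omega) (Set.toFinite I)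
    rw [h3]
  refine ⟨(linIndep (K := K) v).matroid, rfl, fun A => ⟨fun h => ⟨?_, h.indep⟩, fun h => hb A h.1 h.2⟩⟩
  have h1 := h.ncard_eq_ncard_of_isBase (hb S hS hSi)
  rw [Set.ncard_coe_finset, Set.ncard_coe_finset] at h1
  omega

end Pool.Agent.G2Swap
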