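import Pool.Agent.H60S1.App
import Pool.Agent.H57K2.Level3
import Pool.Agent.G2Swap.LStep

/-!
# Single exchanges: the levels are complete
-/

set_option autoImplicit false

namespace Pool.Agent.G2Swap

open Finset
open Pool.Agent.H60S1

variable {K : Type*} [Field K]

/-- The level step in the frame of `H60S1`. -/
theorem step_up {E : Type*} [Fintype E] [DecidableEq E] {r : ℕ} (F : Finset E → K)
    (N₁ N₂ : Matroid E) (hk₁ : ∀ A : Finset E, N₁.IsBase (A : Set E) → A.card = r)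
    (hk₂ : ∀ A : Finset E, N₂.IsBase (A : Set E) → A.card = r)
    (hF : ∀ A : Finset E, F A ≠ 0 ↔ N₁.IsBase (A : Set E) ∧ N₂.IsBase (A : Set E))
    (hE : Fintype.card E = 2 * r)
    (hc : ∀ A : Finset E, A.card = r → F Aᶜ = (-1) ^ r * F A)
    (htot : ∀ C : Finset E, C.card < r → ∑ A ∈ univ.filter (fun A => C ⊆ A), F A = 0)
    {j : ℕ} (hj : r + 2 < 4 * j)
    (hlow : ∀ P, Closed r F P → ∀ C : Finset E, r < C.card + j → C.card < r →
      up (res F P) C = 0) (P : Finset E → Prop) (hP : Closed r F P) (C : Finset E)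
    (hC : C.card + j = r) : up (res F P) C = 0 := by
  have hcl : ∀ P, Levels.Closed F r P → Closed r F P :=
    fun P h A A' h1 h2 h3 h4 => h A A' h2 h3 h4 h1
  have hcl' : Levels.Closed F r P := fun A A' h2 h3 h4 h1 => hP A A' h1 h2 h3 h4
  exact Levels.level_step N₁ N₂ hk₁ hk₂ hF (fun C hC => htot C hC) hE hc hcl' hC (by omega) hj
    (fun P hP D h1 h2 => hlow P (hcl P hP) D h2 h1)

/-- The path for vectors. -/
theorem core1 {r : ℕ}
    (hcond : ∀ j, 4 ≤ j → 4 * j ≤ r + 2 → ∃ i, 0 < i ∧ i < j ∧ ((j.choose i : ℕ) : K) ≠ 0)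
    (v w : Fin r ⊕ Fin r → Fin r → K)
    (hrel : ∀ i j, ∑ x, v x i * w x j = 0) (S : Finset (Fin r ⊕ Fin r)) (hS : S.card = r)
    (hd : (H60G2.msum v w S).det ≠ 0) : Relation.ReflTransGen (H60G2.MStep1 v w) S Sᶜ := by
  have hv := H60G2.indep_left v w S hS hd
  have hw := H60G2.indep_right v w S hS hd
  have hfr : Module.finrank K (Fin r → K) = r := by simp
  have hE : Fintype.card (Fin r ⊕ Fin r) = 2 * r := by simp [two_mul]
  have hF : ∀ A : Finset (Fin r ⊕ Fin r), H97CB.FF v w A ≠ 0 ↔ A.card = r ∧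
      (H60G2.lin (K := K) v).Indep (A : Set (Fin r ⊕ Fin r)) ∧
        (H60G2.lin (K := K) w).Indep (A : Set (Fin r ⊕ Fin r)) := by
    intro A
    rw [H97CB.FF_ne_zero, H60G2.lin_indep, H60G2.lin_indep]
  have hbv := H60G2.lin_isBase hfr hS hv
  have hbw := H60G2.lin_isBase hfr hS hw
  have hFb : ∀ A : Finset (Fin r ⊕ Fin r), H97CB.FF v w A ≠ 0 ↔
      (H60G2.lin (K := K) v).IsBase (A : Set (Fin r ⊕ Fin r)) ∧
        (H60G2.lin (K := K) w).IsBase (A : Set (Fin r ⊕ Fin r)) := by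
    intro A
    rw [H97CB.FF_ne_zero, hbv, hbw]
    tauto
  have hFM : ∀ A, H97CB.FF v w A ≠ 0 → A.card = r ∧ (H60G2.msum v w A).det ≠ 0 := by
    intro A hA
    unfold H97CB.FF at hA
    split_ifs at hA with h
    · exact ⟨h, hA⟩
    · exact absurd rfl hA
  have hFc : ∀ A : Finset (Fin r ⊕ Fin r), A.card = r →
      H97CB.FF v w Aᶜ = (-1) ^ r * H97CB.FF v w A := by
    intro A hA
    have hAc : Aᶜ.card = r := by
      rw [card_compl, hE, hA]
      omega
    unfold H97CB.FF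
    rw [if_pos hA, if_pos hAc]
    exact H60G2.det_msum_compl v w hrel A
  have hFS : H97CB.FF v w S ≠ 0 := (H97CB.FF_ne_zero v w S).2 ⟨hS, hv, hw⟩
  have h := path r (H97CB.FF v w) (H60G2.lin (K := K) v) (H60G2.lin (K := K) w) hE hF
    (fun C hC => H97CB.FF_sum hrel C hC) ?_ S hFS
  · exact Relation.ReflTransGen.mono (fun A A' h => ⟨(hFM A' h.1).1, (hFM A' h.1).2, h.2⟩) _ _ h
  · intro j h3 hjr hlow P hP C hC
    rcases Nat.eq_or_lt_of_le h3 with rfl | h3
    · rw [up_res]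
      exact H57K2.sum_three r (H97CB.FF v w) P (fun C hC => H97CB.FF_sum hrel C hC)
        (H60G2.lin (K := K) v) (H60G2.lin (K := K) w)
        (fun A hA hAc => (hbv A).2 ⟨hAc, (H60G2.lin_indep v _).1 hA⟩)
        (fun A hA hAc => (hbw A).2 ⟨hAc, (H60G2.lin_indep w _).1 hA⟩) hF hP C hC
    rcases lt_or_ge (r + 2) (4 * j) with h4 | h4
    · exact step_up (H97CB.FF v w) (H60G2.lin (K := K) v) (H60G2.lin (K := K) w)
        (fun A hA => ((hbv A).1 hA).1) (fun A hA => ((hbw A).1 hA).1) hFb hE hFc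
        (fun C hC => H97CB.FF_sum hrel C hC) h4 hlow P hP C hC
    · obtain ⟨i, hi0, hij, hc⟩ := hcond j h3 h4
      refine binom_step (f := res (H97CB.FF v w) P) (k := r)
        (res_card (fun A h => ((hF A).1 h).1) P) hij.le hc ?_ C hC
      intro C' hC'
      exact hlow P hP C' (by omega) (by omega)

/-- **Single exchanges.** -/
theorem single_swap {α V : Type*} [AddCommGroup V] [Module K V]
    (M : Matroid α) (φ : α → V) (hφ : ∀ X ⊆ M.E, M.Indep X ↔ LinearIndepOn K φ X)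
    {B B' : Set α} (hB : M.IsBase B) (hB' : M.IsBase B') (hfin : B.Finite)
    (hcond : ∀ j, 4 ≤ j → 4 * j ≤ (B \ B').ncard + 2 →
      ∃ i, 0 < i ∧ i < j ∧ ((j.choose i : ℕ) : K) ≠ 0) :
    Relation.ReflTransGen (H11SW.SymExchange M) (B, B') (B', B) :=
  H60G2.swap1_of_core M φ hφ hB hB' hfin rfl fun v w h S hS hd => core1 hcond v w h S hS hd

end Pool.Agent.G2Swap
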